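import Pool.Agent.Q208.LQ.Bas

/-!
# Project LS (helper283): primes of quadratic extensions, elementary facts used in RQ2 and RQ3
-/

set_option autoImplicit false

namespace Pool.Agent.Q153.LS

open NumberField IsDedekindDomain WithZero Pool.Agent.Q283.LQ

section A

variable {F L : Type} [Field F] [NumberField F] [Field L] [NumberField L] [Algebra F L]

/-- the prime below -/
theorem below (w : HeightOneSpectrum (𝓞 L)) :
    ∃ (v : HeightOneSpectrum (𝓞 F)) (e : ℕ), 1 ≤ e ∧ w.asIdeal.under (𝓞 F) = v.asIdeal ∧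
      ∀ z : F, w.valuation L (algebraMap F L z) = v.valuation F z ^ e := by
  have hne : w.asIdeal.under (𝓞 F) ≠ ⊥ := Ideal.under_ne_bot (𝓞 F) w.ne_bot
  have hpr : (w.asIdeal.under (𝓞 F)).IsPrime := inferInstance
  let v : HeightOneSpectrum (𝓞 F) := ⟨w.asIdeal.under (𝓞 F), hpr, hne⟩
  have : w.asIdeal.LiesOver v.asIdeal := ⟨rfl⟩
  refine ⟨v, v.asIdeal.ramificationIdx' w.asIdeal, ?_, rfl,
    fun z => (HeightOneSpectrum.valuation_liesOver L v w z).symm⟩
  exact Nat.one_le_iff_ne_zero.2 (Ideal.IsDedekindDomain.ramificationIdx'_ne_zero_of_liesOver w.asIdeal v.ne_bot)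

/-- a prime above -/
theorem above (v : HeightOneSpectrum (𝓞 F)) :
    ∃ (w : HeightOneSpectrum (𝓞 L)) (e : ℕ), 1 ≤ e ∧ w.asIdeal.under (𝓞 F) = v.asIdeal ∧
      ∀ z : F, w.valuation L (algebraMap F L z) = v.valuation F z ^ e := by
  have := v.isMaximal
  obtain ⟨P, hP, hlo⟩ := Ideal.exists_maximal_ideal_liesOver_of_isIntegral (S := 𝓞 L) v.asIdeal
  have hne : P ≠ ⊥ := Ideal.ne_bot_of_liesOver_of_ne_bot v.ne_bot P
  let w : HeightOneSpectrum (𝓞 L) := ⟨P, hP.isPrime, hne⟩
  have : w.asIdeal.LiesOver v.asIdeal := hlo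
  refine ⟨w, v.asIdeal.ramificationIdx' w.asIdeal, ?_, hlo.over.symm,
    fun z => (HeightOneSpectrum.valuation_liesOver L v w z).symm⟩
  exact Nat.one_le_iff_ne_zero.2 (Ideal.IsDedekindDomain.ramificationIdx'_ne_zero_of_liesOver w.asIdeal v.ne_bot)

theorem dy_iff {w : HeightOneSpectrum (𝓞 L)} {v : HeightOneSpectrum (𝓞 F)}
    (h : w.asIdeal.under (𝓞 F) = v.asIdeal) : Dy w ↔ Dy v := by
  unfold Dy
  rw [← h, Ideal.mem_comap, map_ofNat]

/-- the value of `2` determines whether the prime is above `2` -/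
theorem dy_val (w : HeightOneSpectrum (𝓞 L)) : Dy w ↔ w.valuation L 2 < 1 := by
  unfold Dy
  have h : (2 : L) = algebraMap (𝓞 L) L 2 := by rw [map_ofNat]
  rw [h, HeightOneSpectrum.valuation_of_algebraMap, HeightOneSpectrum.intValuation_lt_one_iff_mem]

end A

section B

variable {L : Type} [Field L] [NumberField L]

theorem int_le_iff (w : HeightOneSpectrum (𝓞 L)) (x : 𝓞 L) (n : ℕ) :
    w.intValuation x ≤ exp (-(n : ℤ)) ↔ x ∈ w.asIdeal ^ n :=
  w.intValuation_le_pow_iff_mem x n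

/-- the conjugate prime -/
theorem conj (s : L ≃+* L) (w : HeightOneSpectrum (𝓞 L)) :
    ∃ w' : HeightOneSpectrum (𝓞 L),
      (∀ x : 𝓞 L, x ∈ w'.asIdeal ↔ RingOfIntegers.mapRingEquiv s x ∈ w.asIdeal) ∧
      ∀ z : L, w'.valuation L z = w.valuation L (s z) := by
  let S : 𝓞 L ≃+* 𝓞 L := RingOfIntegers.mapRingEquiv s
  have hpr : (w.asIdeal.comap S).IsPrime := Ideal.comap_isPrime _ _
  have hne : w.asIdeal.comap S ≠ ⊥ := by
    obtain ⟨x, hx, hx0⟩ := Submodule.exists_mem_ne_zero_of_ne_bot w.ne_bot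
    intro h
    have h1 : S.symm x ∈ w.asIdeal.comap S := by
      rw [Ideal.mem_comap, RingEquiv.apply_symm_apply]
      exact hx
    rw [h, Ideal.mem_bot] at h1
    exact hx0 (by simpa using h1)
  let w' : HeightOneSpectrum (𝓞 L) := ⟨w.asIdeal.comap S, hpr, hne⟩
  have hpow : ∀ (n : ℕ) (x : 𝓞 L), x ∈ w'.asIdeal ^ n ↔ S x ∈ w.asIdeal ^ n := by
    intro n x
    have h1 : w'.asIdeal ^ n = (w.asIdeal ^ n).comap S := by
      show (w.asIdeal.comap S) ^ n = _
      rw [← Ideal.map_symm, ← Ideal.map_symm, Ideal.map_pow]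
    rw [h1, Ideal.mem_comap]
  have hint : ∀ x : 𝓞 L, w'.intValuation x = w.intValuation (S x) := by
    intro x
    have key : ∀ n : ℕ, w'.intValuation x ≤ exp (-(n : ℤ)) ↔ w.intValuation (S x) ≤ exp (-(n : ℤ)) := by
      intro n
      rw [int_le_iff, int_le_iff, hpow]
    by_cases hx : x = 0
    · simp [hx]
    have hSx : S x ≠ 0 := by simpa using hx
    apply le_antisymm
    · rw [w.intValuation_eq_exp_neg_multiplicity hSx]
      exact (key _).2 (le_of_eq (w.intValuation_eq_exp_neg_multiplicity hSx))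
    · rw [w'.intValuation_eq_exp_neg_multiplicity hx]
      exact (key _).1 (le_of_eq (w'.intValuation_eq_exp_neg_multiplicity hx))
  refine ⟨w', fun x => Iff.rfl, fun z => ?_⟩
  obtain ⟨x, y, hy, rfl⟩ := IsFractionRing.div_surjective (A := 𝓞 L) z
  have h1 : ∀ x : 𝓞 L, s (algebraMap (𝓞 L) L x) = algebraMap (𝓞 L) L (S x) := fun x => rfl
  rw [map_div₀, map_div₀, map_div₀, h1, h1, HeightOneSpectrum.valuation_of_algebraMap,
    HeightOneSpectrum.valuation_of_algebraMap, HeightOneSpectrum.valuation_of_algebraMap,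
    HeightOneSpectrum.valuation_of_algebraMap, hint, hint]

end B

section Q

variable {F L : Type} [Field F] [NumberField F] [Field L] [NumberField L] [Algebra F L]

/-- the elements of a quadratic extension -/
theorem dec {u : F} (hQ : Quad F L u) {θ : L} (hθ : θ ^ 2 = algebraMap F L u) (hns : ¬ IsSquare u) (z : L) :
    ∃ a b : F, z = algebraMap F L a + algebraMap F L b * θ := by
  have hli : LinearIndependent F ![(1 : L), θ] := by
    rw [LinearIndependent.pair_iff]
    intro a b h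
    have hb : b = 0 := by
      by_contra hb
      apply hns
      refine ⟨-(a / b), ?_⟩
      apply (algebraMap F L).injective
      have h1 : θ = algebraMap F L (-(a / b)) := by
        have hb' : algebraMap F L b ≠ 0 := by simpa using hb
        rw [Algebra.smul_def, Algebra.smul_def, mul_one] at h
        rw [map_neg, map_div₀]
        field_simp
        linear_combination h
      rw [← hθ, h1, map_mul, sq]
    subst hb
    refine ⟨?_, rfl⟩
    simpa [Algebra.smul_def] using h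
  have hsp := hli.span_eq_top_of_card_eq_finrank' (by simpa using hQ.deg.symm)
  have hz : z ∈ Submodule.span F (Set.range ![(1 : L), θ]) := by rw [hsp]; trivial
  rw [Matrix.range_cons, Matrix.range_cons, Matrix.range_empty, Set.union_empty, Set.singleton_union,
    Submodule.mem_span_pair] at hz
  obtain ⟨a, b, h⟩ := hz
  refine ⟨a, b, ?_⟩
  rw [← h, Algebra.smul_def, Algebra.smul_def, mul_one]

/-- the square root and the nontrivial automorphism -/
theorem sig {u : F} (hQ : Quad F L u) (hns : ¬ IsSquare u) :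
    ∃ (θ : L) (s : L ≃ₐ[F] L), θ ^ 2 = algebraMap F L u ∧ s θ = -θ ∧
      ∀ z : L, ∃ a b : F, z = algebraMap F L a + algebraMap F L b * θ := by
  obtain ⟨θ, hθ⟩ := hQ.root
  have hdec := dec hQ hθ hns
  have hq : Algebra.IsQuadraticExtension F L := ⟨hQ.deg⟩
  have hfd : FiniteDimensional F L := FiniteDimensional.of_finrank_pos (by rw [hQ.deg]; norm_num)
  have hgal : IsGalois F L := inferInstance
  have hcard : Nat.card (L ≃ₐ[F] L) = 2 := by rw [IsGalois.card_aut_eq_finrank, hQ.deg]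
  obtain ⟨s, hs⟩ : ∃ s : L ≃ₐ[F] L, s ≠ 1 := by
    by_contra hcon
    push Not at hcon
    have h1 : Subsingleton (L ≃ₐ[F] L) := ⟨fun a b => by rw [hcon a, hcon b]⟩
    rw [Nat.card_of_subsingleton 1] at hcard
    omega
  refine ⟨θ, s, hθ, ?_, hdec⟩
  have h2 : (s θ) ^ 2 = θ ^ 2 := by rw [← map_pow, hθ, AlgEquiv.commutes]
  rcases sq_eq_sq_iff_eq_or_eq_neg.1 h2 with h | h
  · exfalso
    apply hs
    ext z
    obtain ⟨a, b, hab⟩ := hdec z
    rw [hab, map_add, map_mul, AlgEquiv.commutes, AlgEquiv.commutes, h]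
    rfl
  · exact h

/-- `s` has order two -/
theorem ss {θ : L} {s : L ≃ₐ[F] L} (hs : s θ = -θ)
    (hdec : ∀ z : L, ∃ a b : F, z = algebraMap F L a + algebraMap F L b * θ) (z : L) : s (s z) = z := by
  obtain ⟨a, b, h⟩ := hdec z
  rw [h, map_add, map_mul, AlgEquiv.commutes, AlgEquiv.commutes, hs, map_add, map_mul, AlgEquiv.commutes,
    AlgEquiv.commutes, map_neg, hs, neg_neg]

/-- the Galois group acts transitively -/
theorem tra {u : F} {θ : L} {s : L ≃ₐ[F] L} (hθ : θ ^ 2 = algebraMap F L u) (hs : s θ = -θ)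
    (hdec : ∀ z : L, ∃ a b : F, z = algebraMap F L a + algebraMap F L b * θ)
    {w w' w1 : HeightOneSpectrum (𝓞 L)} (h : w.asIdeal.under (𝓞 F) = w'.asIdeal.under (𝓞 F))
    (h1 : ∀ x : 𝓞 L, x ∈ w1.asIdeal ↔ RingOfIntegers.mapRingEquiv (s : L ≃+* L) x ∈ w.asIdeal) :
    w' = w ∨ w' = w1 := by
  by_contra hcon
  push Not at hcon
  have ha : ∀ p : HeightOneSpectrum (𝓞 L), w' ≠ p → ¬ w'.asIdeal ≤ p.asIdeal := by
    intro p hp hle
    apply hp
    apply HeightOneSpectrum.ext
    exact w'.isMaximal.eq_of_le p.isPrime.ne_top hle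
  have hb : ¬ ((w'.asIdeal : Set (𝓞 L)) ⊆ w.asIdeal ∪ w1.asIdeal) := by
    rw [Ideal.subset_union]
    push Not
    exact ⟨ha _ hcon.1, ha _ hcon.2⟩
  obtain ⟨t, ht, ht2⟩ := Set.not_subset.1 hb
  rw [Set.mem_union, not_or] at ht2
  obtain ⟨a, b, hab⟩ := hdec (t : L)
  have hn : ((t * RingOfIntegers.mapRingEquiv (s : L ≃+* L) t : 𝓞 L) : L) =
      algebraMap F L (a ^ 2 - b ^ 2 * u) := by
    have h2 : ((RingOfIntegers.mapRingEquiv (s : L ≃+* L) t : 𝓞 L) : L) = s (t : L) := rfl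
    have h3 : ((t * RingOfIntegers.mapRingEquiv (s : L ≃+* L) t : 𝓞 L) : L) =
      (t : L) * ((RingOfIntegers.mapRingEquiv (s : L ≃+* L) t : 𝓞 L) : L) := rfl
    rw [h3, h2, hab, map_add, map_mul, AlgEquiv.commutes, AlgEquiv.commutes, hs, map_sub, map_mul,
      map_pow, map_pow, ← hθ]
    ring
  have hint : IsIntegral ℤ (a ^ 2 - b ^ 2 * u) := by
    rw [← isIntegral_algebraMap_iff (algebraMap F L).injective, ← hn]
    exact RingOfIntegers.isIntegral_coe _
  obtain ⟨m, hm⟩ : ∃ m : 𝓞 F, (m : F) = a ^ 2 - b ^ 2 * u := ⟨⟨_, hint⟩, rfl⟩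
  have hm2 : algebraMap (𝓞 F) (𝓞 L) m = t * RingOfIntegers.mapRingEquiv (s : L ≃+* L) t := by
    apply RingOfIntegers.ext
    rw [hn, ← hm]
    rfl
  have hm3 : m ∈ w'.asIdeal.under (𝓞 F) := by
    rw [Ideal.mem_comap, hm2]
    exact Ideal.mul_mem_right _ _ ht
  rw [← h, Ideal.mem_comap, hm2] at hm3
  rcases w.isPrime.mem_or_mem hm3 with h3 | h3
  · exact ht2.1 h3
  · exact ht2.2 ((h1 t).2 h3)

end Q

end Pool.Agent.Q153.LS
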