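import Pool.Agent.Q153.LS.Quad
import Pool.Agent.Q283.LS.Stm3

/-!
# Project LS (helper283), job RQ2: the prime above `2` does not split
-/

set_option autoImplicit false

namespace Pool.Agent.Q153.LS

open NumberField IsDedekindDomain WithZero Pool.Agent.Q283.LQ

section A

variable {F : Type} [Field F] [NumberField F]

theorem notSq {v : HeightOneSpectrum (𝓞 F)} {u : F} (hu : u ≠ 0) (h : ¬ Lsq v u) : ¬ IsSquare u := by
  rintro ⟨x, hx⟩
  apply h
  have hx0 : x ≠ 0 := by
    rintro rfl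
    exact hu (by simpa using hx)
  have h1 := (Pool.Agent.Q208.LQ.bas F v).2.2.1 x hx0
  rwa [sq, ← hx] at h1

end A

theorem pw (e n : ℕ) : (exp (-((e * n + 1 : ℕ) : ℤ)) : ℤᵐ⁰) < (exp (-(n : ℤ))) ^ e := by
  rw [← exp_nsmul, exp_lt_exp]
  simp only [nsmul_eq_mul]
  push_cast
  linarith

theorem rq2 : Pool.Agent.Q283.LS.S_RQ2 := by
  intro F L _ _ _ _ _ u hQ hu hL hone w w' hw hw'
  by_contra hne
  obtain ⟨v, e, he, hv, hval⟩ := below (F := F) w
  have hdv : Dy v := (dy_iff hv).1 hw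
  obtain ⟨v', e', he', hv', hval'⟩ := below (F := F) w'
  have hvv : v' = v := hone _ _ ((dy_iff hv').1 hw') hdv
  obtain ⟨θ, s, hθ, hs, hdec⟩ := sig hQ (notSq hu (hL v hdv))
  obtain ⟨w1, h1, h1v⟩ := conj (s : L ≃+* L) w
  have hw1 : w' = w1 := by
    have hund : w.asIdeal.under (𝓞 F) = w'.asIdeal.under (𝓞 F) := by rw [hv, hv', hvv]
    rcases tra hθ hs hdec hund h1 with h | h
    · exact absurd h.symm hne
    · exact h
  apply hL v hdv
  intro n
  have hmax : w.asIdeal ≠ w'.asIdeal := fun h => hne (HeightOneSpectrum.ext h)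
  have hcop0 : IsCoprime w.asIdeal w'.asIdeal := by
    rw [Ideal.isCoprime_iff_sup_eq]
    exact w.isMaximal.coprime_of_ne w'.isMaximal hmax
  have hcop : IsCoprime (w.asIdeal ^ (e * n + 1)) (w'.asIdeal ^ (e * n + 1)) := IsCoprime.pow hcop0
  obtain ⟨i, hi, j, hj, hij⟩ := Ideal.isCoprime_iff_exists.1 hcop
  have hwi : w.valuation L (i : L) ≤ exp (-((e * n + 1 : ℕ) : ℤ)) := by
    rw [HeightOneSpectrum.valuation_of_algebraMap]
    exact (int_le_iff w i _).2 hi
  have hwj : w.valuation L (s (j : L)) ≤ exp (-((e * n + 1 : ℕ) : ℤ)) := by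
    have h2 := h1v (j : L)
    have h3 : w.valuation L (s (j : L)) = w1.valuation L (j : L) := h2.symm
    rw [h3, ← hw1, HeightOneSpectrum.valuation_of_algebraMap]
    exact (int_le_iff w' j _).2 hj
  have hij' : (i : L) + (j : L) = 1 := by
    have h2 := congrArg (algebraMap (𝓞 L) L) hij
    rwa [map_add, map_one] at h2
  obtain ⟨a, b, hab⟩ := hdec (j : L)
  refine ⟨2 * b, ?_⟩
  have hsj : s (j : L) = algebraMap F L a - algebraMap F L b * θ := by
    rw [hab, map_add, map_mul, AlgEquiv.commutes, AlgEquiv.commutes, hs]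
    ring
  have hkey : algebraMap F L (u * (2 * b) ^ 2 - 1) = (-(i : L) - s (j : L)) * ((j : L) - s (j : L) + 1) := by
    have h4 : -(i : L) = (j : L) - 1 := by rw [← hij']; ring
    rw [h4, hsj, hab, map_sub, map_mul, map_pow, map_mul, ← hθ, map_one, map_ofNat]
    ring
  have hlt : v.valuation F (u * (2 * b) ^ 2 - 1) ^ e < (exp (-(n : ℤ))) ^ e := by
    refine lt_of_le_of_lt ?_ (pw e n)
    rw [← hval, hkey, map_mul]
    have h5 : w.valuation L (-(i : L) - s (j : L)) ≤ exp (-((e * n + 1 : ℕ) : ℤ)) := by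
      refine (Valuation.map_sub _ _ _).trans (max_le ?_ hwj)
      rw [Valuation.map_neg]
      exact hwi
    have h6 : w.valuation L ((j : L) - s (j : L) + 1) ≤ 1 := by
      have h7 : w.valuation L (s (j : L)) ≤ 1 := hwj.trans (Pool.Agent.Q208.LQ.exp_neg_le_one _)
      have h8 : w.valuation L (j : L) ≤ 1 := HeightOneSpectrum.valuation_le_one w j
      refine (Valuation.map_add _ _ _).trans (max_le ?_ (le_of_eq (Valuation.map_one _)))
      exact (Valuation.map_sub _ _ _).trans (max_le h8 h7)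
    calc _ ≤ exp (-((e * n + 1 : ℕ) : ℤ)) * 1 := mul_le_mul' h5 h6
      _ = _ := mul_one _
  exact lt_of_pow_lt_pow_left₀ e zero_le' hlt

end Pool.Agent.Q153.LS
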