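import Pool.Agent.Q153.LS.Quad
import Pool.Agent.Q283.LS.Stm3

/-!
# Project LS (helper283), job RQ3: regularity of quadratic extensions
-/

set_option autoImplicit false

namespace Pool.Agent.Q153.LS

open NumberField IsDedekindDomain WithZero Pool.Agent.Q283.LQ

section A

variable {F : Type} [Field F] [NumberField F]

/-- there is a prime above `2` -/
theorem exDy (F : Type) [Field F] [NumberField F] : ∃ v : HeightOneSpectrum (𝓞 F), Dy v := by
  have h2 : Prime (2 : ℤ) := Int.prime_two
  have hne : (Ideal.span {(2 : ℤ)}) ≠ ⊥ := by simp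
  have hpr : (Ideal.span {(2 : ℤ)}).IsPrime := (Ideal.span_singleton_prime two_ne_zero).2 h2
  have hmax : (Ideal.span {(2 : ℤ)}).IsMaximal := hpr.isMaximal hne
  obtain ⟨P, hP, hlo⟩ := Ideal.exists_maximal_ideal_liesOver_of_isIntegral (S := 𝓞 F) (Ideal.span {(2 : ℤ)})
  have hPne : P ≠ ⊥ := Ideal.ne_bot_of_liesOver_of_ne_bot hne P
  refine ⟨⟨P, hP.isPrime, hPne⟩, ?_⟩
  unfold Dy
  have h3 : (2 : ℤ) ∈ P.under ℤ := by
    rw [← hlo.over]
    exact Ideal.mem_span_singleton_self _
  rw [Ideal.mem_comap, map_ofNat] at h3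
  exact h3

theorem exN {x : ℤᵐ⁰} (hx : x ≠ 0) : ∃ n : ℕ, (exp (-(n : ℤ)) : ℤᵐ⁰) ≤ x := by
  refine ⟨(log x).natAbs, ?_⟩
  rw [← exp_log hx, exp_le_exp, log_exp]
  omega

theorem val_two {w : HeightOneSpectrum (𝓞 F)} (h : ¬ Dy w) : w.valuation F 2 = 1 := by
  have h1 : w.valuation F 2 ≤ 1 := by
    have h2 : (2 : F) = algebraMap (𝓞 F) F 2 := by rw [map_ofNat]
    rw [h2]
    exact HeightOneSpectrum.valuation_le_one w _
  rw [dy_val] at h
  exact le_antisymm h1 (not_lt.1 h)

end A

section B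

variable {F L : Type} [Field F] [NumberField F] [Field L] [NumberField L] [Algebra F L]

/-- values of elements of `L` are values of elements of `F` -/
theorem vals {U : F} {η : L} (hη : η ^ 2 = algebraMap F L U) {w : HeightOneSpectrum (𝓞 L)}
    (h2 : w.valuation L 2 = 1) (hη1 : w.valuation L η = 1) (a b : F)
    (hz : algebraMap F L a + algebraMap F L b * η ≠ 0) :
    ∃ y : F, w.valuation L (algebraMap F L a + algebraMap F L b * η) = w.valuation L (algebraMap F L y) := by
  have hb1 : w.valuation L (algebraMap F L b * η) = w.valuation L (algebraMap F L b) := by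
    rw [map_mul, hη1, mul_one]
  rcases lt_trichotomy (w.valuation L (algebraMap F L a)) (w.valuation L (algebraMap F L b * η)) with h | h | h
  · exact ⟨b, by rw [Valuation.map_add_eq_of_lt_right _ h, hb1]⟩
  · by_cases h3 : w.valuation L (algebraMap F L a + algebraMap F L b * η) = w.valuation L (algebraMap F L a)
    · exact ⟨a, h3⟩
    have h4 : w.valuation L (algebraMap F L a + algebraMap F L b * η) < w.valuation L (algebraMap F L a) := by
      refine lt_of_le_of_ne ?_ h3
      exact (Valuation.map_add _ _ _).trans (max_le le_rfl (le_of_eq h.symm))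
    have ha : algebraMap F L a ≠ 0 := by
      intro h5
      rw [h5, map_zero] at h4
      exact absurd h4 not_lt_zero
    have h6 : w.valuation L (algebraMap F L a - algebraMap F L b * η) = w.valuation L (algebraMap F L a) := by
      have h7 : algebraMap F L a - algebraMap F L b * η =
        -(algebraMap F L a + algebraMap F L b * η) + 2 * algebraMap F L a := by ring
      have h8 : w.valuation L (2 * algebraMap F L a) = w.valuation L (algebraMap F L a) := by
        rw [map_mul, h2, one_mul]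
      rw [h7, Valuation.map_add_eq_of_lt_right, h8]
      rw [h8, Valuation.map_neg]
      exact h4
    refine ⟨(a ^ 2 - b ^ 2 * U) / a, ?_⟩
    have h9 : algebraMap F L ((a ^ 2 - b ^ 2 * U) / a) =
        (algebraMap F L a + algebraMap F L b * η) * ((algebraMap F L a - algebraMap F L b * η) / algebraMap F L a) := by
      rw [map_div₀, map_sub, map_mul, map_pow, map_pow, ← hη]
      field_simp
      ring
    rw [h9, map_mul, map_div₀, h6, div_self, mul_one]
    exact (Valuation.ne_zero_iff _).2 ha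
  · exact ⟨a, Valuation.map_add_eq_of_lt_left _ h⟩

/-- primes not above `2` are unramified -/
theorem unram {u : F} {θ : L} (hθ : θ ^ 2 = algebraMap F L u)
    (hdec : ∀ z : L, ∃ a b : F, z = algebraMap F L a + algebraMap F L b * θ) (hu : u ≠ 0)
    {w : HeightOneSpectrum (𝓞 L)} {v : HeightOneSpectrum (𝓞 F)} {e : ℕ} (he : 1 ≤ e)
    (hval : ∀ z : F, w.valuation L (algebraMap F L z) = v.valuation F z ^ e) (hw : ¬ Dy w) (hod : ¬ Od v u) :
    e = 1 := by
  obtain ⟨c, hc0, hc⟩ := Pool.Agent.Q208.LQ.unit_rep v hu hod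
  have hη : (algebraMap F L c * θ) ^ 2 = algebraMap F L (u * c ^ 2) := by
    rw [mul_pow, hθ, map_mul, map_pow]
    ring
  have hη1 : w.valuation L (algebraMap F L c * θ) = 1 := by
    have h1 : w.valuation L (algebraMap F L c * θ) ^ 2 = 1 := by
      rw [← map_pow, hη, hval, hc, one_pow]
    exact (pow_eq_one_iff.1 h1).resolve_right two_ne_zero
  obtain ⟨ϖ, hϖ⟩ := w.valuation_exists_uniformizer L
  have hϖ0 : ϖ ≠ 0 := by
    rintro rfl
    rw [map_zero] at hϖ
    exact exp_ne_zero hϖ.symm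
  obtain ⟨a, b, hab⟩ := hdec ϖ
  have hab2 : ϖ = algebraMap F L a + algebraMap F L (b / c) * (algebraMap F L c * θ) := by
    have hc' : algebraMap F L c ≠ 0 := by simpa using hc0
    rw [hab, map_div₀]
    field_simp
  obtain ⟨y, hy⟩ := vals hη (val_two hw) hη1 a (b / c) (by rw [← hab2]; exact hϖ0)
  rw [← hab2, hval, hϖ] at hy
  have hy0 : v.valuation F y ≠ 0 := by
    intro h
    rw [h, zero_pow (by omega)] at hy
    exact exp_ne_zero hy
  have h5 := congrArg log hy
  rw [log_exp, log_pow, nsmul_eq_mul] at h5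
  have h6 : (e : ℤ) ∣ 1 := ⟨-log (v.valuation F y), by linarith⟩
  have h7 : e ∣ 1 := by exact_mod_cast h6
  exact Nat.dvd_one.1 h7

/-- the step from `ξ` to `ξ - y` -/
theorem stp (w : HeightOneSpectrum (𝓞 L)) {c ξ y : L} (h1 : w.valuation L (c * ξ ^ 2 - 1) < w.valuation L 16)
    (h2 : w.valuation L (c * (2 * y) ^ 2) < w.valuation L 16) :
    w.valuation L (c * (ξ - y) ^ 2 - 1) < w.valuation L 4 := by
  have h16 : w.valuation L 16 = w.valuation L 4 ^ 2 := by
    rw [← map_pow]
    norm_num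
  have h4 : w.valuation L 4 ≤ 1 := Pool.Agent.Q208.LQ.val_four w
  have h16l : w.valuation L 16 ≤ w.valuation L 4 := by
    rw [h16, sq]
    calc _ ≤ w.valuation L 4 * 1 := mul_le_mul_right h4 _
      _ = _ := mul_one _
  have h40 : w.valuation L 4 ≠ 0 := (Valuation.ne_zero_iff _).2 (by norm_num)
  have h5 : w.valuation L (c * ξ ^ 2) = 1 :=
    Pool.Agent.Q208.LQ.val_eq_one w (lt_of_lt_of_le h1 (h16l.trans h4))
  have h6 : w.valuation L (c * ξ * (2 * y)) < w.valuation L 4 := by
    have h7 : w.valuation L (c * ξ * (2 * y)) ^ 2 < w.valuation L 4 ^ 2 := by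
      have h8 : (c * ξ * (2 * y)) ^ 2 = (c * ξ ^ 2) * (c * (2 * y) ^ 2) := by ring
      rw [← map_pow, h8, map_mul, h5, one_mul, ← h16]
      exact h2
    exact lt_of_pow_lt_pow_left₀ 2 zero_le h7
  have h7 : w.valuation L (c * (2 * y) ^ 2 / 4) < w.valuation L 4 := by
    rw [map_div₀, div_lt_iff₀ (zero_lt_iff.2 h40), ← sq, ← h16]
    exact h2
  have h8 : c * (ξ - y) ^ 2 - 1 = (c * ξ ^ 2 - 1) - c * ξ * (2 * y) + c * (2 * y) ^ 2 / 4 := by
    field_simp
    ring
  rw [h8]
  refine lt_of_le_of_lt (Valuation.map_add _ _ _) (max_lt ?_ h7)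
  exact lt_of_le_of_lt (Valuation.map_sub _ _ _) (max_lt (lt_of_lt_of_le h1 h16l) h6)

/-- a product below `t²` has a factor below `t` -/
theorem halfs {p q t : ℤᵐ⁰} (h : p * q < t * t) : p < t ∨ q < t := by
  by_contra hcon
  push Not at hcon
  exact absurd h (not_lt.2 (mul_le_mul' hcon.1 hcon.2))

end B

theorem rq3 (hBAS : Pool.Agent.Q283.LQ.S_BAS) (hRQ2 : Pool.Agent.Q283.LS.S_RQ2) : Pool.Agent.Q283.LS.S_RQ3 := by
  intro F L _ _ _ _ _ u hQ hu hev hL hreg
  have hone : ∀ w w' : HeightOneSpectrum (𝓞 L), Dy w → Dy w' → w = w' := hRQ2 F L u hQ hu hL hreg.one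
  refine ⟨hone, ?_⟩
  intro a ha hodd hdy
  obtain ⟨v, hdv⟩ := exDy F
  have hns : ¬ IsSquare u := by
    rintro ⟨x, hx⟩
    apply hL v hdv
    have hx0 : x ≠ 0 := by
      rintro rfl
      exact hu (by simpa using hx)
    have h1 := (hBAS F v).2.2.1 x hx0
    rwa [sq, ← hx] at h1
  obtain ⟨θ, s, hθ, hs, hdec⟩ := sig hQ hns
  have hθ0 : θ ≠ 0 := by
    rintro rfl
    apply hu
    apply (algebraMap F L).injective
    rw [← hθ, map_zero]
    ring
  obtain ⟨w, e, he, hv, hval⟩ := above (L := L) v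
  have hdw : Dy w := (dy_iff hv).2 hdv
  have hws : ∀ z : L, w.valuation L (s z) = w.valuation L z := by
    obtain ⟨w1, h1, h1v⟩ := conj (s : L ≃+* L) w
    have hd1 : Dy w1 := by
      have h2 := (h1 2).2
      rw [map_ofNat] at h2
      exact h2 hdw
    intro z
    have h3 : w1.valuation L z = w.valuation L (s z) := h1v z
    rw [← h3, hone w1 w hd1 hdw]
  obtain ⟨p, q, hpq⟩ := hdec a
  have hsa : s a = algebraMap F L p - algebraMap F L q * θ := by
    rw [hpq, map_add, map_mul, AlgEquiv.commutes, AlgEquiv.commutes, hs]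
    ring
  have hN : algebraMap F L (p ^ 2 - q ^ 2 * u) = a * s a := by
    rw [hsa, map_sub, map_mul, map_pow, map_pow, ← hθ, hpq]
    ring
  have hsa0 : s a ≠ 0 := by simpa using ha
  have hN0 : p ^ 2 - q ^ 2 * u ≠ 0 := by
    intro h
    rw [h, map_zero] at hN
    exact (mul_ne_zero ha hsa0) hN.symm
  have hNsq : IsSquare (p ^ 2 - q ^ 2 * u) := by
    apply hreg.sq _ hN0
    · intro v' hv' hod
      obtain ⟨w', e', he', hvw', hval'⟩ := above (L := L) v'
      have hdw' : ¬ Dy w' := fun h => hv' ((dy_iff hvw').1 h)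
      have he1 := unram hθ hdec hu he' hval' hdw' (hev v' hv')
      have hod' : Od w' (algebraMap F L (p ^ 2 - q ^ 2 * u)) := by
        obtain ⟨m, hm⟩ := hod
        refine ⟨m, ?_⟩
        rw [hval', he1, pow_one, hm]
      obtain ⟨w1, h1, h1v⟩ := conj (s : L ≃+* L) w'
      have hd1 : ¬ Dy w1 := by
        intro h
        have h2 := (h1 2).1 h
        rw [map_ofNat] at h2
        exact hdw' h2
      have ho1 : ¬ Od w' (s a) := by
        rintro ⟨m, hm⟩
        apply hodd w1 hd1
        refine ⟨m, ?_⟩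
        have h3 : w1.valuation L a = w'.valuation L (s a) := h1v a
        rw [h3, hm]
      rw [hN, (hBAS L w').2.2.2.1 a (s a) ha hsa0] at hod'
      have h4 := hodd w' hdw'
      tauto
    · intro v' hv'
      rw [hreg.one v' v hv' hdv]
      intro n
      obtain ⟨ξ, hξ⟩ := hdy w hdw (e * n)
      obtain ⟨x, z, hxz⟩ := hdec ξ
      have hsξ : s ξ = algebraMap F L x - algebraMap F L z * θ := by
        rw [hxz, map_add, map_mul, AlgEquiv.commutes, AlgEquiv.commutes, hs]
        ring
      have hNξ : algebraMap F L (x ^ 2 - z ^ 2 * u) = ξ * s ξ := by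
        rw [hsξ, map_sub, map_mul, map_pow, map_pow, ← hθ, hxz]
        ring
      refine ⟨x ^ 2 - z ^ 2 * u, ?_⟩
      have hξ2 : w.valuation L (s a * s ξ ^ 2 - 1) < exp (-((e * n : ℕ) : ℤ)) := by
        have h3 : s a * s ξ ^ 2 - 1 = s (a * ξ ^ 2 - 1) := by simp
        rw [h3, hws]
        exact hξ
      have hle1 : (exp (-((e * n : ℕ) : ℤ)) : ℤᵐ⁰) ≤ 1 := Pool.Agent.Q208.LQ.exp_neg_le_one _
      have h5 : w.valuation L (s a * s ξ ^ 2) = 1 :=
        Pool.Agent.Q208.LQ.val_eq_one w (lt_of_lt_of_le hξ2 hle1)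
      have h6 : algebraMap F L ((p ^ 2 - q ^ 2 * u) * (x ^ 2 - z ^ 2 * u) ^ 2 - 1) =
          (a * ξ ^ 2 - 1) * (s a * s ξ ^ 2) + (s a * s ξ ^ 2 - 1) := by
        rw [map_sub, map_mul, hN, map_pow, hNξ, map_one]
        ring
      have h7 : v.valuation F ((p ^ 2 - q ^ 2 * u) * (x ^ 2 - z ^ 2 * u) ^ 2 - 1) ^ e < exp (-(n : ℤ)) ^ e := by
        rw [← hval, h6]
        have h8 : (exp (-(n : ℤ)) : ℤᵐ⁰) ^ e = exp (-((e * n : ℕ) : ℤ)) := by
          rw [← exp_nsmul]
          simp
        rw [h8]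
        refine lt_of_le_of_lt (Valuation.map_add _ _ _) (max_lt ?_ hξ2)
        rw [map_mul, h5, mul_one]
        exact hξ
      exact lt_of_pow_lt_pow_left₀ e zero_le h7
  -- the sign of the square root
  obtain ⟨b, hb, hb0⟩ : ∃ b : F, p ^ 2 - q ^ 2 * u = b * b ∧ 2 * p + 2 * b ≠ 0 := by
    obtain ⟨b, hb⟩ := hNsq
    by_cases h1 : 2 * p + 2 * b = 0
    · refine ⟨-b, by rw [hb]; ring, ?_⟩
      intro h2
      have h3 : (4 : F) * b = 0 := by linear_combination h1 - h2
      have h4 : b = 0 := by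
        rcases mul_eq_zero.1 h3 with h | h
        · exact absurd h (by norm_num)
        · exact h
      apply hN0
      rw [hb, h4, mul_zero]
    · exact ⟨b, hb, h1⟩
  set a' : F := 2 * p + 2 * b with ha'
  have haa : a * algebraMap F L a' = (a + algebraMap F L b) ^ 2 := by
    have h1 : a * s a = algebraMap F L b * algebraMap F L b := by rw [← hN, hb, map_mul]
    have h2 : algebraMap F L (2 * p) = a + s a := by
      rw [hsa, hpq, map_mul, map_ofNat]
      ring
    rw [ha', map_add, h2, map_mul, map_ofNat]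
    linear_combination h1
  have ha'0 : algebraMap F L a' ≠ 0 := by simpa using hb0
  have hab0 : a + algebraMap F L b ≠ 0 := by
    intro h
    rw [h] at haa
    exact (mul_ne_zero ha ha'0) (by rw [haa]; ring)
  have heven : ∀ v' : HeightOneSpectrum (𝓞 F), ¬ Dy v' → ¬ Od v' a' := by
    intro v' hv' hod
    obtain ⟨w', e', he', hvw', hval'⟩ := above (L := L) v'
    have hdw' : ¬ Dy w' := fun h => hv' ((dy_iff hvw').1 h)
    have he1 := unram hθ hdec hu he' hval' hdw' (hev v' hv')
    have hod' : Od w' (algebraMap F L a') := by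
      obtain ⟨m, hm⟩ := hod
      refine ⟨m, ?_⟩
      rw [hval', he1, pow_one, hm]
    have h1 : Od w' (a * algebraMap F L a') := by
      rw [(hBAS L w').2.2.2.1 a _ ha ha'0]
      have h4 := hodd w' hdw'
      tauto
    rw [haa] at h1
    exact ((hBAS L w').1 _ ((hBAS L w').2.2.1 _ hab0)).2 h1
  -- local condition
  have hloc : Lsq v a' ∨ Lsq v (a' * u) := by
    have h160 : w.valuation L 16 ≠ 0 := (Valuation.ne_zero_iff _).2 (by norm_num)
    obtain ⟨n, hn⟩ := exN h160
    obtain ⟨ξ0, hξ0⟩ := hdy w hdw n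
    obtain ⟨ξ, hξ⟩ : ∃ ξ : L, w.valuation L (algebraMap F L a' * ξ ^ 2 - 1) < w.valuation L 16 := by
      refine ⟨ξ0 * a / (a + algebraMap F L b), ?_⟩
      have h1 : algebraMap F L a' * (ξ0 * a / (a + algebraMap F L b)) ^ 2 = a * ξ0 ^ 2 := by
        rw [div_pow, ← haa]
        field_simp
      rw [h1]
      exact lt_of_lt_of_le hξ0 hn
    obtain ⟨x, z, hxz⟩ := hdec ξ
    have hsξ : s ξ = algebraMap F L x - algebraMap F L z * θ := by
      rw [hxz, map_add, map_mul, AlgEquiv.commutes, AlgEquiv.commutes, hs]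
      ring
    have hξs : w.valuation L (algebraMap F L a' * s ξ ^ 2 - 1) < w.valuation L 16 := by
      have h3 : algebraMap F L a' * s ξ ^ 2 - 1 = s (algebraMap F L a' * ξ ^ 2 - 1) := by simp
      rw [h3, hws]
      exact hξ
    have h4e : ∀ y : F, v.valuation F y ^ e < v.valuation F 4 ^ e → v.valuation F y < v.valuation F 4 :=
      fun y h => lt_of_pow_lt_pow_left₀ e zero_le h
    have h4v : w.valuation L 4 = v.valuation F 4 ^ e := by
      rw [← hval, map_ofNat (algebraMap F L)]
    have hprod : w.valuation L (algebraMap F L a' * (2 * (algebraMap F L z * θ)) ^ 2) *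
        w.valuation L (algebraMap F L a' * (2 * algebraMap F L x) ^ 2) < w.valuation L 16 * w.valuation L 16 := by
      have h5 : (algebraMap F L a' * (2 * (algebraMap F L z * θ)) ^ 2) * (algebraMap F L a' * (2 * algebraMap F L x) ^ 2) =
          ((algebraMap F L a' * ξ ^ 2 - 1) - (algebraMap F L a' * s ξ ^ 2 - 1)) ^ 2 := by
        rw [hsξ, hxz]
        ring
      rw [← map_mul, h5, map_pow, ← sq]
      have h6 : w.valuation L ((algebraMap F L a' * ξ ^ 2 - 1) - (algebraMap F L a' * s ξ ^ 2 - 1)) <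
          w.valuation L 16 := lt_of_le_of_lt (Valuation.map_sub _ _ _) (max_lt hξ hξs)
      exact pow_lt_pow_left₀ h6 zero_le two_ne_zero
    rcases halfs hprod with h | h
    · left
      apply (hBAS F v).2.2.2.2.1 a' x
      apply h4e
      rw [← hval, ← h4v]
      have h5 := stp w hξ h
      have h6 : algebraMap F L (a' * x ^ 2 - 1) = algebraMap F L a' * (ξ - algebraMap F L z * θ) ^ 2 - 1 := by
        rw [hxz, map_sub, map_mul, map_pow, map_one]
        ring
      rw [h6]
      exact h5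
    · right
      apply (hBAS F v).2.2.2.2.1 (a' * u) z
      apply h4e
      rw [← hval, ← h4v]
      have h5 := stp w hξ h
      have h6 : algebraMap F L (a' * u * z ^ 2 - 1) = algebraMap F L a' * (ξ - algebraMap F L x) ^ 2 - 1 := by
        rw [hxz, map_sub, map_mul, map_mul, map_pow, map_one, ← hθ]
        ring
      rw [h6]
      exact h5
  -- conclusion
  have hfin : IsSquare (algebraMap F L a') := by
    rcases hloc with h | h
    · have h1 : IsSquare a' := hreg.sq a' hb0 heven (fun v' hv' => by rw [hreg.one v' v hv' hdv]; exact h)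
      obtain ⟨t, ht⟩ := h1
      exact ⟨algebraMap F L t, by rw [ht, map_mul]⟩
    · have h1 : IsSquare (a' * u) := by
        refine hreg.sq (a' * u) (mul_ne_zero hb0 hu) ?_ (fun v' hv' => by rw [hreg.one v' v hv' hdv]; exact h)
        intro v' hv' hod
        rw [(hBAS F v').2.2.2.1 a' u hb0 hu] at hod
        have h4 := heven v' hv'
        have h5 := hev v' hv'
        tauto
      obtain ⟨t, ht⟩ := h1
      refine ⟨algebraMap F L t / θ, ?_⟩
      rw [div_mul_div_comm, ← map_mul, ← ht, map_mul, ← sq, hθ]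
      have hu' : algebraMap F L u ≠ 0 := by simpa using hu
      field_simp
  obtain ⟨t, ht⟩ := hfin
  have ht0 : t ≠ 0 := by
    rintro rfl
    rw [mul_zero] at ht
    exact ha'0 ht
  refine ⟨(a + algebraMap F L b) / t, ?_⟩
  rw [div_mul_div_comm, ← sq, ← haa, ← ht]
  field_simp

end Pool.Agent.Q153.LS
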